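import Pool.Agent.Helper64.BQ.Types
import Pool.Agent.Helper7.PD.Types

/-!
Simple abelian varieties of prime and of prime square dimension, and abelian varieties of ball type:
the powers and the degrees of the theorem.
-/

namespace Pool.Agent.GPC

/-- `A` is simple, `dim A` is an odd prime number, there are endomorphisms (tensor `ℚ`) other than
the scalars, and `dim A = 3` or `A` is not balanced. -/
def AbVar.IsPrimeType (A : AbVar) : Prop :=
  A.IsSimple ∧ A.g.Prime ∧ A.g ≠ 2 ∧ (∃ f, A.IsEnd f ∧ ∀ q : ℚ, ∃ v, f v ≠ (q : ℂ) • v) ∧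
    (A.g = 3 ∨ ¬ A.IsNearBalanced)

/-- `A` is simple, `dim A` is the square of an odd prime number, and `End(A) ⊗ ℚ` is not
commutative. -/
def AbVar.IsPrimeSquareType (A : AbVar) : Prop :=
  A.IsSimple ∧ (∃ p : ℕ, p.Prime ∧ p ≠ 2 ∧ A.g = p ^ 2) ∧
    ∃ f h, A.IsEnd f ∧ A.IsEnd h ∧ ∃ v, f (h v) ≠ h (f v)

/-- `A` is of prime dimension and `m = 1` (`IsPrimeType`), or of prime square dimension
(`IsPrimeSquareType`), or of ball type, `m` and `k` as in `IsBallRange`. -/
def AbVar.IsDivisorRange (A : AbVar) (m k : ℕ) : Prop :=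
  (m = 1 ∧ A.IsPrimeType) ∨ A.IsPrimeSquareType ∨ A.IsBallRange m k

end Pool.Agent.GPC
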