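import Pool.Agent.Helper64.BQ.Main
import Pool.Agent.Helper7.PD.Final
import Pool.Agent.PST.All
import Pool.Agent.PSQ.Main
import Pool.Agent.PSQ.AlgAll
import Pool.Agent.Helper7.UN.Types

/-!
Simple abelian varieties of prime and of prime square dimension, and abelian varieties of ball type:
the union of the cases.
-/

namespace Pool.Agent.Helper7.UN

open Pool.Agent.GPC

theorem main (hT : KT2.St_FinT) (hD : KT2.St_FinD) (A : AbVar) (m k : ℕ)
    (h : A.IsDivisorRange m k) (α : Form (fun _ : Unit => A) (fun _ => m) (2 * k)) :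
    IsGrothendieck (fun _ : Unit => A) (fun _ => m) k α ↔
      IsDivisorial (fun _ : Unit => A) (fun _ => m) k α := by
  rcases h with ⟨rfl, hs, hp, hp2, hE, hb⟩ | ⟨hs, ⟨p, hp, hp2, hg⟩, hnc⟩ | h
  · exact Pool.Agent.Helper64.BQ.iff_one A k
      (fun β hβ => (Pool.Agent.Helper7.prime_dim A hs hp hp2 hE hb k β).mp hβ) α
  · exact Pool.Agent.PSQ.main_final PST.All.Det_ _root_.PSQ.all_Main A hs p hp hp2 hg hnc m k α
  · exact Pool.Agent.Helper64.BQ.main hT hD A m k h α

end Pool.Agent.Helper7.UN
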